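import Mathlib

/-! Diameter over average distance: the lower bound for the sum of the distances. -/

open SimpleGraph Finset

namespace Run7.h842.BG

variable {V : Type*} [Fintype V]

/-- the sum of the distances over all ordered pairs -/
noncomputable def total (G : SimpleGraph V) : ℕ := ∑ x, ∑ y, G.dist x y

theorem total_split [DecidableEq V] (G : SimpleGraph V) {D : ℕ} (f : Fin (D + 1) → V) (hf : Function.Injective f) :
    total G = ∑ i, ∑ j, G.dist (f i) (f j) + 2 * ∑ x ∈ (univ.image f)ᶜ, ∑ i, G.dist x (f i)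
      + ∑ x ∈ (univ.image f)ᶜ, ∑ y ∈ (univ.image f)ᶜ, G.dist x y := by
  have h1 : ∀ g : V → ℕ, ∑ x, g x = ∑ i, g (f i) + ∑ x ∈ (univ.image f)ᶜ, g x := by
    intro g
    rw [← Finset.sum_add_sum_compl (univ.image f) g, Finset.sum_image (fun a _ b _ h => hf h)]
  unfold total
  rw [h1]
  have h2 : ∀ x, ∑ y, G.dist x y = ∑ i, G.dist x (f i) + ∑ y ∈ (univ.image f)ᶜ, G.dist x y :=
    fun x => h1 _
  simp_rw [h2, Finset.sum_add_distrib]
  have h3 : ∑ x : Fin (D + 1), ∑ y ∈ (univ.image f)ᶜ, G.dist (f x) y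
      = ∑ x ∈ (univ.image f)ᶜ, ∑ i, G.dist x (f i) := by
    rw [Finset.sum_comm]
    refine Finset.sum_congr rfl fun x _ => Finset.sum_congr rfl fun i _ => ?_
    exact G.dist_comm
  rw [h3]
  ring

/-- the sum of the distances inside the path -/
def PA (D : ℕ) : ℕ := ∑ i : Fin (D + 1), ∑ j : Fin (D + 1), ((i : ℤ) - j).natAbs

/-- the sum of the distances to the path, doubled -/
def PB (D : ℕ) : ℕ := ∑ i ∈ range (D + 1), max 2 ((D : ℤ) - 2 * i).natAbs

theorem PB_eq : ∀ D : ℕ, PB D = 2 + 2 * ∑ i ∈ range (D + 1), ((i : ℤ) - (D / 2 : ℕ)).natAbs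
  | 0 => by simp [PB]
  | 1 => by simp [PB, Finset.sum_range_succ]
  | D + 2 => by
    have ih := PB_eq D
    unfold PB at ih ⊢
    have hc : (D + 2) / 2 = D / 2 + 1 := by omega
    rw [Finset.sum_range_succ, Finset.sum_range_succ', hc,
      Finset.sum_range_succ (fun i : ℕ => ((i : ℤ) - ((D / 2 + 1 : ℕ) : ℤ)).natAbs),
      Finset.sum_range_succ' (fun i : ℕ => ((i : ℤ) - ((D / 2 + 1 : ℕ) : ℤ)).natAbs)]
    have e1 : ∀ i : ℕ, (((D + 2 : ℕ) : ℤ) - 2 * ((i + 1 : ℕ) : ℤ)).natAbs = ((D : ℤ) - 2 * i).natAbs := by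
      intro i; congr 1; push_cast; ring
    have e2 : ∀ i : ℕ, (((i + 1 : ℕ) : ℤ) - ((D / 2 + 1 : ℕ) : ℤ)).natAbs
        = ((i : ℤ) - ((D / 2 : ℕ) : ℤ)).natAbs := by
      intro i; congr 1; push_cast; ring
    simp_rw [e1, e2]
    rw [ih]
    have e3 : max 2 (((D + 2 : ℕ) : ℤ) - 2 * ((0 : ℕ) : ℤ)).natAbs = D + 2 := by omega
    have e4 : max 2 ((D : ℤ) - 2 * ((D + 1 : ℕ) : ℤ)).natAbs = D + 2 := by omega
    have e5 : (((0 : ℕ) : ℤ) - ((D / 2 + 1 : ℕ) : ℤ)).natAbs = D / 2 + 1 := by omega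
    have e6 : (((D + 1 : ℕ) : ℤ) - ((D / 2 : ℕ) : ℤ)).natAbs = D + 1 - D / 2 := by omega
    rw [e3, e4, e5, e6]
    omega

/-- the diameter -/
noncomputable def diameter (G : SimpleGraph V) : ℕ := univ.sup fun p : V × V => G.dist p.1 p.2

theorem dist_le_diameter (G : SimpleGraph V) (x y : V) : G.dist x y ≤ diameter G :=
  Finset.le_sup (f := fun p : V × V => G.dist p.1 p.2) (mem_univ (x, y))

theorem exists_diameter [Nonempty V] (G : SimpleGraph V) : ∃ x y : V, G.dist x y = diameter G := by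
  obtain ⟨p, -, hp⟩ := Finset.exists_mem_eq_sup (univ : Finset (V × V)) univ_nonempty
    (fun p : V × V => G.dist p.1 p.2)
  exact ⟨p.1, p.2, hp.symm⟩

omit [Fintype V] in
/-- one vertex in every distance layer -/
theorem exists_layer (G : SimpleGraph V) (hG : G.Connected) (u v : V) (i : ℕ) (hi : i ≤ G.dist u v) :
    ∃ w, G.dist u w = i := by
  obtain ⟨p, hp⟩ := hG.exists_walk_length_eq_dist u v
  refine ⟨p.getVert i, ?_⟩
  have h1 : G.dist u (p.getVert i) ≤ i := by
    refine (dist_le (p.take i)).trans ?_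
    rw [Walk.take_length]; omega
  have h2 : G.dist (p.getVert i) v ≤ G.dist u v - i := by
    refine (dist_le (p.drop i)).trans ?_
    rw [Walk.drop_length]; omega
  have h3 := hG.dist_triangle (u := u) (v := p.getVert i) (w := v)
  omega

theorem lower [DecidableEq V] (G : SimpleGraph V) (hG : G.Connected) {D m : ℕ} (hD : diameter G = D)
    (hn : Fintype.card V = m + (D + 1)) :
    PA D + m * PB D + m * (m - 1) ≤ total G := by
  have := hG.nonempty
  obtain ⟨u, v, huv⟩ := exists_diameter G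
  rw [hD] at huv
  have hex : ∀ i : Fin (D + 1), ∃ w, G.dist u w = i := fun i =>
    exists_layer G hG u v i (by rw [huv]; omega)
  choose f hf using hex
  have hfd : ∀ i j : Fin (D + 1), ((i : ℤ) - j).natAbs ≤ G.dist (f i) (f j) := by
    intro i j
    have h1 := hG.dist_triangle (u := u) (v := f i) (w := f j)
    have h2 := hG.dist_triangle (u := u) (v := f j) (w := f i)
    rw [hf, hf] at h1 h2
    rw [G.dist_comm (u := f j) (v := f i)] at h2
    omega
  have hinj : Function.Injective f := by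
    intro i j hij
    have := hf i
    rw [hij, hf j] at this
    exact Fin.ext this.symm
  rw [total_split G f hinj]
  have hcard : (univ.image f)ᶜ.card = m := by
    rw [Finset.card_compl, Finset.card_image_of_injective _ hinj, hn]; simp
  have hne : ∀ x ∈ (univ.image f)ᶜ, ∀ i, x ≠ f i := by
    intro x hx i h
    simp at hx
    exact hx i h.symm
  have hpos : ∀ x y : V, x ≠ y → 1 ≤ G.dist x y := fun x y h => hG.pos_dist_of_ne h
  have hA : PA D ≤ ∑ i, ∑ j, G.dist (f i) (f j) :=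
    Finset.sum_le_sum fun i _ => Finset.sum_le_sum fun j _ => hfd i j
  have hB : ∀ x ∈ (univ.image f)ᶜ, PB D ≤ 2 * ∑ i, G.dist x (f i) := by
    intro x hx
    have hrev : ∑ i : Fin (D + 1), G.dist x (f i) = ∑ i : Fin (D + 1), G.dist x (f i.rev) :=
      (Equiv.sum_comp Fin.revPerm (fun i => G.dist x (f i))).symm
    have : 2 * ∑ i, G.dist x (f i) = ∑ i : Fin (D + 1), (G.dist x (f i) + G.dist x (f i.rev)) := by
      rw [Finset.sum_add_distrib, ← hrev]; ring
    rw [this]
    unfold PB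
    rw [Finset.sum_range (fun i : ℕ => max 2 ((D : ℤ) - 2 * i).natAbs)]
    refine Finset.sum_le_sum fun i _ => ?_
    have h1 := hpos x (f i) (hne x hx i)
    have h2 := hpos x (f i.rev) (hne x hx i.rev)
    have h3 := hG.dist_triangle (u := f i) (v := x) (w := f i.rev)
    rw [G.dist_comm (u := f i) (v := x)] at h3
    have h4 := hfd i i.rev
    have h5 : ((i.rev : Fin (D + 1)) : ℕ) = D - i := by rw [Fin.val_rev]; omega
    have h6 : (i : ℕ) ≤ D := by omega
    have h7 : (((i : ℕ) : ℤ) - ((i.rev : Fin (D + 1)) : ℕ)).natAbs = ((D : ℤ) - 2 * (i : ℕ)).natAbs := by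
      rw [h5]; omega
    rw [h7] at h4
    have := h4.trans h3
    omega
  have hB' : m * PB D ≤ 2 * ∑ x ∈ (univ.image f)ᶜ, ∑ i, G.dist x (f i) := by
    rw [Finset.mul_sum, ← hcard, ← smul_eq_mul, ← Finset.sum_const]
    exact Finset.sum_le_sum hB
  have hC : m * (m - 1) ≤ ∑ x ∈ (univ.image f)ᶜ, ∑ y ∈ (univ.image f)ᶜ, G.dist x y := by
    have : ∀ x ∈ (univ.image f)ᶜ, m - 1 ≤ ∑ y ∈ (univ.image f)ᶜ, G.dist x y := by
      intro x hx
      rw [← Finset.add_sum_erase _ _ hx]
      have h8 : ∑ y ∈ (univ.image f)ᶜ.erase x, 1 ≤ ∑ y ∈ (univ.image f)ᶜ.erase x, G.dist x y :=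
        Finset.sum_le_sum fun y hy => hpos x y (Finset.ne_of_mem_erase hy).symm
      rw [Finset.sum_const, Finset.card_erase_of_mem hx, hcard] at h8
      simp at h8
      omega
    calc m * (m - 1) = ∑ x ∈ (univ.image f)ᶜ, (m - 1) := by rw [Finset.sum_const, hcard]; rfl
      _ ≤ _ := Finset.sum_le_sum this
  omega

end Run7.h842.BG
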