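import Pool.Agent.Run7.h842.BG.A

/-! Diameter over average distance: the bugs. -/

open SimpleGraph Finset

namespace Run7.h842.BG

/-- vertices of `Bug_{p,k₁,k₂}`: the vertices of the complete graph (`0` is `u`, `1` is `v`), the vertices of
the path attached to `u`, the vertices of the path attached to `v` -/
abbrev BugV (p k₁ k₂ : ℕ) : Type := Fin p ⊕ (Fin k₁ ⊕ Fin k₂)

/-- the edges of `Bug_{p,k₁,k₂}`, listed in (at least) one direction -/
inductive BugRel (p k₁ k₂ : ℕ) : BugV p k₁ k₂ → BugV p k₁ k₂ → Prop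
  | clique (i j : Fin p) : ¬ (i.val = 0 ∧ j.val = 1) → ¬ (i.val = 1 ∧ j.val = 0) →
      BugRel p k₁ k₂ (Sum.inl i) (Sum.inl j)
  | path₁ (i j : Fin k₁) : i.val + 1 = j.val →
      BugRel p k₁ k₂ (Sum.inr (Sum.inl i)) (Sum.inr (Sum.inl j))
  | path₂ (i j : Fin k₂) : i.val + 1 = j.val →
      BugRel p k₁ k₂ (Sum.inr (Sum.inr i)) (Sum.inr (Sum.inr j))
  | attach₁ (i : Fin p) (j : Fin k₁) : i.val = 0 → j.val = 0 →
      BugRel p k₁ k₂ (Sum.inl i) (Sum.inr (Sum.inl j))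
  | attach₂ (i : Fin p) (j : Fin k₂) : i.val = 1 → j.val = 0 →
      BugRel p k₁ k₂ (Sum.inl i) (Sum.inr (Sum.inr j))

/-- the bug -/
def bug (p k₁ k₂ : ℕ) : SimpleGraph (BugV p k₁ k₂) := SimpleGraph.fromRel (BugRel p k₁ k₂)

/-- the position along the diametral path -/
def pos (p k₁ k₂ : ℕ) : BugV p k₁ k₂ → ℤ
  | Sum.inl i => if i.val = 0 then k₁ else if i.val = 1 then k₁ + 2 else k₁ + 1
  | Sum.inr (Sum.inl j) => k₁ - 1 - j.val
  | Sum.inr (Sum.inr j) => k₁ + 3 + j.val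

theorem pos_rel {p k₁ k₂ : ℕ} {x y : BugV p k₁ k₂} (h : BugRel p k₁ k₂ x y) :
    (pos p k₁ k₂ x - pos p k₁ k₂ y).natAbs ≤ 1 := by
  cases h with
  | clique i j h1 h2 => simp only [pos]; split_ifs <;> omega
  | path₁ i j h1 => simp only [pos]; omega
  | path₂ i j h1 => simp only [pos]; omega
  | attach₁ i j h1 h2 => simp only [pos, h1, h2]; simp
  | attach₂ i j h1 h2 => simp only [pos, h1, h2]; simp

theorem pos_adj {p k₁ k₂ : ℕ} {x y : BugV p k₁ k₂} (h : (bug p k₁ k₂).Adj x y) :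
    (pos p k₁ k₂ x - pos p k₁ k₂ y).natAbs ≤ 1 := by
  rw [bug, SimpleGraph.fromRel_adj] at h
  rcases h.2 with h | h
  · exact pos_rel h
  · have := pos_rel h; omega

theorem pos_walk {p k₁ k₂ : ℕ} {x y : BugV p k₁ k₂} (w : (bug p k₁ k₂).Walk x y) :
    (pos p k₁ k₂ x - pos p k₁ k₂ y).natAbs ≤ w.length := by
  induction w with
  | nil => simp
  | cons h w ih => have := pos_adj h; rw [Walk.length_cons]; omega

/-- the diametral path -/
def f (p k₁ k₂ : ℕ) (hp : 3 ≤ p) (i : Fin (k₁ + k₂ + 2 + 1)) : BugV p k₁ k₂ :=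
  if h1 : i.val < k₁ then Sum.inr (Sum.inl ⟨k₁ - 1 - i.val, by omega⟩)
  else if h2 : i.val = k₁ then Sum.inl ⟨0, by omega⟩
  else if h3 : i.val = k₁ + 1 then Sum.inl ⟨2, by omega⟩
  else if h4 : i.val = k₁ + 2 then Sum.inl ⟨1, by omega⟩
  else Sum.inr (Sum.inr ⟨i.val - k₁ - 3, by omega⟩)

theorem pos_f (p k₁ k₂ : ℕ) (hp : 3 ≤ p) (i : Fin (k₁ + k₂ + 2 + 1)) :
    pos p k₁ k₂ (f p k₁ k₂ hp i) = i.val := by
  unfold f
  split_ifs with h1 h2 h3 h4
  · simp only [pos]; omega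
  · simp only [pos]; simp [h2]
  · simp only [pos]; simp [h3]
  · simp only [pos]; simp [h4]
  · simp only [pos]; omega

theorem f_inj (p k₁ k₂ : ℕ) (hp : 3 ≤ p) : Function.Injective (f p k₁ k₂ hp) := by
  intro i j hij
  have h := congrArg (pos p k₁ k₂) hij
  rw [pos_f, pos_f] at h
  exact Fin.ext (by exact_mod_cast h)

theorem f_adj (p k₁ k₂ : ℕ) (hp : 3 ≤ p) (i j : Fin (k₁ + k₂ + 2 + 1)) (hij : i.val + 1 = j.val) :
    (bug p k₁ k₂).Adj (f p k₁ k₂ hp i) (f p k₁ k₂ hp j) := by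
  rw [bug, SimpleGraph.fromRel_adj]
  refine ⟨fun h => ?_, ?_⟩
  · have := f_inj p k₁ k₂ hp h
    rw [this] at hij; omega
  · unfold f
    by_cases h1 : i.val < k₁
    · by_cases h2 : j.val < k₁
      · rw [dif_pos h1, dif_pos h2]
        exact Or.inr (BugRel.path₁ _ _ (by simp; omega))
      · have h3 : j.val = k₁ := by omega
        rw [dif_pos h1, dif_neg h2, dif_pos h3]
        exact Or.inr (BugRel.attach₁ _ _ rfl (by simp; omega))
    · by_cases h2 : i.val = k₁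
      · have h3 : j.val = k₁ + 1 := by omega
        rw [dif_neg h1, dif_pos h2, dif_neg (by omega), dif_neg (by omega), dif_pos h3]
        exact Or.inl (BugRel.clique _ _ (by simp) (by simp))
      · by_cases h3 : i.val = k₁ + 1
        · have h4 : j.val = k₁ + 2 := by omega
          rw [dif_neg h1, dif_neg h2, dif_pos h3, dif_neg (by omega), dif_neg (by omega),
            dif_neg (by omega), dif_pos h4]
          exact Or.inl (BugRel.clique _ _ (by simp) (by simp))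
        · by_cases h4 : i.val = k₁ + 2
          · rw [dif_neg h1, dif_neg h2, dif_neg h3, dif_pos h4, dif_neg (by omega), dif_neg (by omega),
              dif_neg (by omega), dif_neg (by omega)]
            exact Or.inl (BugRel.attach₂ _ _ rfl (by simp; omega))
          · rw [dif_neg h1, dif_neg h2, dif_neg h3, dif_neg h4, dif_neg (by omega), dif_neg (by omega),
              dif_neg (by omega), dif_neg (by omega)]
            exact Or.inl (BugRel.path₂ _ _ (by simp; omega))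

/-- the centre of the path -/
def cen (k₁ k₂ : ℕ) : Fin (k₁ + k₂ + 2 + 1) := ⟨k₁ + 1, by omega⟩

theorem mem_compl {p k₁ k₂ : ℕ} (hp : 3 ≤ p) {x : BugV p k₁ k₂}
    (hx : x ∈ (univ.image (f p k₁ k₂ hp))ᶜ) : ∃ i : Fin p, 3 ≤ i.val ∧ x = Sum.inl i := by
  simp only [Finset.mem_compl, mem_image, mem_univ, true_and, not_exists] at hx
  rcases x with i | j | j
  · refine ⟨i, ?_, rfl⟩
    by_contra hlt
    have h0 : i.val = 0 ∨ i.val = 1 ∨ i.val = 2 := by omega
    rcases h0 with h | h | h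
    · apply hx ⟨k₁, by omega⟩
      unfold f
      rw [dif_neg (by simp), dif_pos rfl]
      congr 1; exact Fin.ext h.symm
    · apply hx ⟨k₁ + 2, by omega⟩
      unfold f
      rw [dif_neg (by simp), dif_neg (by simp), dif_neg (by simp), dif_pos rfl]
      congr 1; exact Fin.ext h.symm
    · apply hx ⟨k₁ + 1, by omega⟩
      unfold f
      rw [dif_neg (by simp), dif_neg (by simp), dif_pos rfl]
      congr 1; exact Fin.ext h.symm
  · exfalso
    apply hx ⟨k₁ - 1 - j.val, by omega⟩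
    unfold f
    have h1 : k₁ - 1 - j.val < k₁ := by omega
    rw [dif_pos h1]
    congr 2; ext; simp; omega
  · exfalso
    apply hx ⟨k₁ + 3 + j.val, by omega⟩
    unfold f
    rw [dif_neg (by simp; omega), dif_neg (by simp; omega), dif_neg (by simp; omega),
      dif_neg (by simp; omega)]
    congr 2; ext; simp; omega

/-- the clique vertices outside the path are adjacent to the three central vertices of the path -/
theorem compl_adj {p k₁ k₂ : ℕ} (hp : 3 ≤ p) {x : BugV p k₁ k₂}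
    (hx : x ∈ (univ.image (f p k₁ k₂ hp))ᶜ) (i : Fin (k₁ + k₂ + 2 + 1))
    (hi : i.val = k₁ ∨ i.val = k₁ + 1 ∨ i.val = k₁ + 2) :
    (bug p k₁ k₂).Adj x (f p k₁ k₂ hp i) := by
  obtain ⟨a, ha, rfl⟩ := mem_compl hp hx
  rw [bug, SimpleGraph.fromRel_adj]
  unfold f
  rcases hi with h | h | h
  · rw [dif_neg (by omega), dif_pos h]
    refine ⟨fun h => ?_, Or.inl (BugRel.clique _ _ (by simp) (by simp; omega))⟩
    have := congrArg Fin.val (Sum.inl_injective h); simp at this; omega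
  · rw [dif_neg (by omega), dif_neg (by omega), dif_pos h]
    refine ⟨fun h => ?_, Or.inl (BugRel.clique _ _ (by simp) (by simp))⟩
    have := congrArg Fin.val (Sum.inl_injective h); simp at this; omega
  · rw [dif_neg (by omega), dif_neg (by omega), dif_neg (by omega), dif_pos h]
    refine ⟨fun h => ?_, Or.inl (BugRel.clique _ _ (by simp; omega) (by simp))⟩
    have := congrArg Fin.val (Sum.inl_injective h); simp at this; omega

theorem compl_compl_adj {p k₁ k₂ : ℕ} (hp : 3 ≤ p) {x y : BugV p k₁ k₂}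
    (hx : x ∈ (univ.image (f p k₁ k₂ hp))ᶜ) (hy : y ∈ (univ.image (f p k₁ k₂ hp))ᶜ) (hxy : x ≠ y) :
    (bug p k₁ k₂).Adj x y := by
  obtain ⟨a, ha, rfl⟩ := mem_compl hp hx
  obtain ⟨b, hb, rfl⟩ := mem_compl hp hy
  rw [bug, SimpleGraph.fromRel_adj]
  exact ⟨hxy, Or.inl (BugRel.clique _ _ (by omega) (by omega))⟩

theorem f_walk (p k₁ k₂ : ℕ) (hp : 3 ≤ p) (d : ℕ) : ∀ (i j : Fin (k₁ + k₂ + 2 + 1)), i.val + d = j.val →
    ∃ w : (bug p k₁ k₂).Walk (f p k₁ k₂ hp i) (f p k₁ k₂ hp j), w.length = d := by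
  induction d with
  | zero =>
    intro i j h
    have : i = j := Fin.ext (by omega)
    subst this
    exact ⟨Walk.nil, rfl⟩
  | succ d ih =>
    intro i j h
    obtain ⟨w, hw⟩ := ih ⟨i.val + 1, by omega⟩ j (by simp; omega)
    refine ⟨Walk.cons (f_adj p k₁ k₂ hp i ⟨i.val + 1, by omega⟩ rfl) w, ?_⟩
    rw [Walk.length_cons, hw]

theorem f_dist (p k₁ k₂ : ℕ) (hp : 3 ≤ p) (i j : Fin (k₁ + k₂ + 2 + 1)) :
    (bug p k₁ k₂).dist (f p k₁ k₂ hp i) (f p k₁ k₂ hp j) ≤ ((i : ℤ) - j).natAbs := by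
  rcases le_total i.val j.val with h | h
  · obtain ⟨w, hw⟩ := f_walk p k₁ k₂ hp (j.val - i.val) i j (by omega)
    refine (dist_le w).trans ?_
    omega
  · obtain ⟨w, hw⟩ := f_walk p k₁ k₂ hp (i.val - j.val) j i (by omega)
    rw [SimpleGraph.dist_comm]
    refine (dist_le w).trans ?_
    omega

theorem bug_connected (p k₁ k₂ : ℕ) (hp : 3 ≤ p) : (bug p k₁ k₂).Connected := by
  have hreach : ∀ x, (bug p k₁ k₂).Reachable (f p k₁ k₂ hp (cen k₁ k₂)) x := by
    intro x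
    by_cases hx : x ∈ (univ.image (f p k₁ k₂ hp))
    · simp only [mem_image, mem_univ, true_and] at hx
      obtain ⟨i, rfl⟩ := hx
      rcases le_total (cen k₁ k₂).val i.val with h | h
      · obtain ⟨w, -⟩ := f_walk p k₁ k₂ hp (i.val - (cen k₁ k₂).val) (cen k₁ k₂) i (by omega)
        exact w.reachable
      · obtain ⟨w, -⟩ := f_walk p k₁ k₂ hp ((cen k₁ k₂).val - i.val) i (cen k₁ k₂) (by omega)
        exact w.reachable.symm
    · have hx' : x ∈ (univ.image (f p k₁ k₂ hp))ᶜ := by rw [Finset.mem_compl]; exact hx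
      exact (compl_adj hp hx' (cen k₁ k₂) (Or.inr (Or.inl rfl))).reachable.symm
  have : Nonempty (BugV p k₁ k₂) := ⟨f p k₁ k₂ hp (cen k₁ k₂)⟩
  exact SimpleGraph.Connected.mk fun x y => (hreach x).symm.trans (hreach y)

theorem compl_f_dist {p k₁ k₂ : ℕ} (hp : 3 ≤ p) {x : BugV p k₁ k₂}
    (hx : x ∈ (univ.image (f p k₁ k₂ hp))ᶜ) (i : Fin (k₁ + k₂ + 2 + 1)) :
    (bug p k₁ k₂).dist x (f p k₁ k₂ hp i) ≤ max 1 ((i : ℤ) - (k₁ + 1 : ℕ)).natAbs := by
  have hG := bug_connected p k₁ k₂ hp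
  rcases lt_trichotomy i.val (k₁ + 1) with h | h | h
  · have h1 := (compl_adj hp hx ⟨k₁, by omega⟩ (Or.inl rfl))
    have h2 := hG.dist_triangle (u := x) (v := f p k₁ k₂ hp ⟨k₁, by omega⟩) (w := f p k₁ k₂ hp i)
    rw [SimpleGraph.dist_eq_one_iff_adj.mpr h1] at h2
    have h3 := f_dist p k₁ k₂ hp ⟨k₁, by omega⟩ i
    simp only [] at h3
    omega
  · have h1 := (compl_adj hp hx i (Or.inr (Or.inl h)))
    rw [SimpleGraph.dist_eq_one_iff_adj.mpr h1]
    omega
  · have h1 := (compl_adj hp hx ⟨k₁ + 2, by omega⟩ (Or.inr (Or.inr rfl)))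
    have h2 := hG.dist_triangle (u := x) (v := f p k₁ k₂ hp ⟨k₁ + 2, by omega⟩) (w := f p k₁ k₂ hp i)
    rw [SimpleGraph.dist_eq_one_iff_adj.mpr h1] at h2
    have h3 := f_dist p k₁ k₂ hp ⟨k₁ + 2, by omega⟩ i
    simp only [] at h3
    omega

theorem bug_diameter_ge (p k₁ k₂ : ℕ) (hp : 3 ≤ p) : k₁ + k₂ + 2 ≤ diameter (bug p k₁ k₂) := by
  have hG := bug_connected p k₁ k₂ hp
  set a : Fin (k₁ + k₂ + 2 + 1) := ⟨0, by omega⟩
  set b : Fin (k₁ + k₂ + 2 + 1) := ⟨k₁ + k₂ + 2, by omega⟩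
  obtain ⟨w, hw⟩ := hG.exists_walk_length_eq_dist (f p k₁ k₂ hp a) (f p k₁ k₂ hp b)
  have h1 := pos_walk w
  rw [pos_f, pos_f, hw] at h1
  refine le_trans ?_ (dist_le_diameter _ (f p k₁ k₂ hp a) (f p k₁ k₂ hp b))
  simp only [a, b] at h1 ⊢
  omega

theorem bug_diameter (p k₁ k₂ : ℕ) (hp : 3 ≤ p) : diameter (bug p k₁ k₂) = k₁ + k₂ + 2 := by
  have hG := bug_connected p k₁ k₂ hp
  refine le_antisymm ?_ (bug_diameter_ge p k₁ k₂ hp)
  unfold diameter
  refine Finset.sup_le fun z _ => ?_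
  obtain ⟨x, y⟩ := z
  simp only
  by_cases hx : x ∈ (univ.image (f p k₁ k₂ hp))
  · by_cases hy : y ∈ (univ.image (f p k₁ k₂ hp))
    · simp only [mem_image, mem_univ, true_and] at hx hy
      obtain ⟨i, rfl⟩ := hx
      obtain ⟨j, rfl⟩ := hy
      have := f_dist p k₁ k₂ hp i j
      omega
    · have hy' : y ∈ (univ.image (f p k₁ k₂ hp))ᶜ := by rw [Finset.mem_compl]; exact hy
      simp only [mem_image, mem_univ, true_and] at hx
      obtain ⟨i, rfl⟩ := hx
      rw [SimpleGraph.dist_comm]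
      have := compl_f_dist hp hy' i
      omega
  · have hx' : x ∈ (univ.image (f p k₁ k₂ hp))ᶜ := by rw [Finset.mem_compl]; exact hx
    by_cases hy : y ∈ (univ.image (f p k₁ k₂ hp))
    · simp only [mem_image, mem_univ, true_and] at hy
      obtain ⟨i, rfl⟩ := hy
      have := compl_f_dist hp hx' i
      omega
    · have hy' : y ∈ (univ.image (f p k₁ k₂ hp))ᶜ := by rw [Finset.mem_compl]; exact hy
      by_cases hxy : x = y
      · subst hxy; simp
      · rw [SimpleGraph.dist_eq_one_iff_adj.mpr (compl_compl_adj hp hx' hy' hxy)]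
        omega

theorem bug_total (p k₁ k₂ : ℕ) (hp : 3 ≤ p) (hk : k₁ ≤ k₂) (hk' : k₂ ≤ k₁ + 1) :
    total (bug p k₁ k₂) ≤ PA (k₁ + k₂ + 2) + (p - 3) * PB (k₁ + k₂ + 2) + (p - 3) * (p - 3 - 1) := by
  rw [total_split (bug p k₁ k₂) (f p k₁ k₂ hp) (f_inj p k₁ k₂ hp)]
  have hcard : (univ.image (f p k₁ k₂ hp))ᶜ.card = p - 3 := by
    rw [Finset.card_compl, Finset.card_image_of_injective _ (f_inj p k₁ k₂ hp)]
    simp; omega
  refine Nat.add_le_add (Nat.add_le_add ?_ ?_) ?_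
  · exact Finset.sum_le_sum fun i _ => Finset.sum_le_sum fun j _ => f_dist p k₁ k₂ hp i j
  · rw [Finset.mul_sum, ← hcard, ← smul_eq_mul, ← Finset.sum_const]
    refine Finset.sum_le_sum fun x hx => ?_
    rw [PB_eq]
    have hc : (k₁ + k₂ + 2) / 2 = k₁ + 1 := by omega
    rw [hc, Finset.sum_range (fun i : ℕ => ((i : ℤ) - ((k₁ + 1 : ℕ) : ℤ)).natAbs)]
    have h1 : ∑ i : Fin (k₁ + k₂ + 2 + 1), (bug p k₁ k₂).dist x (f p k₁ k₂ hp i)
        ≤ ∑ i : Fin (k₁ + k₂ + 2 + 1), (((i : ℤ) - (k₁ + 1 : ℕ)).natAbs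
          + if i = cen k₁ k₂ then 1 else 0) := by
      refine Finset.sum_le_sum fun i _ => ?_
      have h2 := compl_f_dist hp hx i
      by_cases h3 : i = cen k₁ k₂
      · have h5 : i.val = k₁ + 1 := by rw [h3]; rfl
        rw [if_pos h3]
        omega
      · rw [if_neg h3]
        have h4 : i.val ≠ k₁ + 1 := fun h => h3 (Fin.ext h)
        omega
    rw [Finset.sum_add_distrib, Finset.sum_ite_eq' univ (cen k₁ k₂) (fun _ => 1)] at h1
    simp only [mem_univ, if_true] at h1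
    omega
  · calc ∑ x ∈ (univ.image (f p k₁ k₂ hp))ᶜ, ∑ y ∈ (univ.image (f p k₁ k₂ hp))ᶜ, (bug p k₁ k₂).dist x y
        ≤ ∑ x ∈ (univ.image (f p k₁ k₂ hp))ᶜ, (p - 3 - 1) := by
          refine Finset.sum_le_sum fun x hx => ?_
          rw [← Finset.add_sum_erase _ _ hx]
          have : ∑ y ∈ (univ.image (f p k₁ k₂ hp))ᶜ.erase x, (bug p k₁ k₂).dist x y
              ≤ ∑ y ∈ (univ.image (f p k₁ k₂ hp))ᶜ.erase x, 1 := by
            refine Finset.sum_le_sum fun y hy => ?_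
            rw [SimpleGraph.dist_eq_one_iff_adj.mpr (compl_compl_adj hp hx
              (Finset.mem_of_mem_erase hy) (Finset.ne_of_mem_erase hy).symm)]
          rw [Finset.sum_const, Finset.card_erase_of_mem hx, hcard] at this
          simpa using this
      _ = (p - 3) * (p - 3 - 1) := by rw [Finset.sum_const, hcard]; rfl

end Run7.h842.BG
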